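import Pool.Agent.ALT.Statement
import Pool.Agent.ARK.All

/-!
# ALK: combinations without leaves (helper39)
-/

set_option autoImplicit false

namespace Pool.Agent.ALK

open Pool.Agent.ARB Pool.Agent.ARK Pool.Agent.ALT

/-- a combination without leaves is an arborescent tangle -/
theorem exArb (T : Tree) (h : ∀ w, ¬ T.Leaf w) : ∃ R : Arb, R.word = T.word := by
  induction T with
  | zero => exact ⟨.zero, rfl⟩
  | cross p => exact ⟨.cross p, rfl⟩
  | leaf w => exact absurd rfl (h w)
  | sum S T hS hT =>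
    obtain ⟨A, hA⟩ := hS fun w hw => h w (Or.inl hw)
    obtain ⟨B, hB⟩ := hT fun w hw => h w (Or.inr hw)
    exact ⟨.sum A B, by simp only [Arb.word, Tree.word, hA, hB]⟩
  | rot T hT =>
    obtain ⟨A, hA⟩ := hT h
    exact ⟨.rot A, by simp only [Arb.word, Tree.word, hA]⟩

/-- no leaves: the polynomial modulo `(A ^ 4 + 1) ^ 3` is enough -/
theorem kfin_noLeaf (T : Tree) (h : ∀ w, ¬ T.Leaf w) (D : List KSlice)
    (hD : kforget D = kn T.word)
    (hf : (LaurentPolynomial.T 4 + 1 : LaurentPolynomial ℤ) ^ 3 ∣ kPoly D - 1) :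
    KIso 0 (kforget D) triv := by
  obtain ⟨R, hR⟩ := exArb T h
  exact all_Kfin R D (by rw [hR]; exact hD) hf

end Pool.Agent.ALK
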