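import Pool.Agent.ALK.Gr2
import Pool.Agent.ALK.NoLeaf
import Pool.Agent.ALT.Ex.Main

/-!
# ALK: the theorem for knotoids of combinations of leaves (helper39)
-/

set_option autoImplicit false

namespace Pool.Agent.ALK

open Pool.Agent.ARB Pool.Agent.ARK Pool.Agent.ALT

/-- both versions: the polynomial is one; no leaves, the polynomial modulo `(A ^ 4 + 1) ^ 3` -/
theorem kall (T : Tree) (hl : ∀ w, T.Leaf w → Pool.ALT.IsLeaf w) (D : List KSlice)
    (hD : kforget D = kn T.word) :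
    (kPoly D = 1 → KIso 0 (kforget D) triv ∨ ∃ w, T.Leaf w ∧ Pool.ALT.BadX w) ∧
    ((∀ w, ¬ T.Leaf w) →
      (LaurentPolynomial.T 4 + 1 : LaurentPolynomial ℤ) ^ 3 ∣ kPoly D - 1 →
      KIso 0 (kforget D) triv) := by
  refine ⟨fun hf => ?_, fun h hf => kfin_noLeaf T h D hD hf⟩
  rcases kfin_all T hl D hD hf with h | ⟨w, hw, hb⟩
  · exact Or.inl h
  · exact Or.inr ⟨w, hw, Pool.ALT.bad_cross w (hl w hw) hb⟩

end Pool.Agent.ALK
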