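import Pool.Agent.ALK.Zero
import Pool.Agent.ALT.Fin

/-!
# ALK: the theorem for knotoids of combinations of leaves, from the bracket and the grading
-/

set_option autoImplicit false

namespace Pool.Agent.ALK

open Pool.Agent Pool.Agent.ARB Pool.Agent.ARK Pool.Agent.ALT LaurentPolynomial Pool.Agent.Helper2

/-- If `γ + β` is a unit, then one of them is `0` and the other one is the unit (graded pairs). -/
theorem gr_cases {g b : LP} {r : ZMod 4} (h1 : b ∈ gr r) (h2 : g ∈ gr (r + 2)) (h : IsU (g + b)) :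
    (g = 0 ∧ IsU b) ∨ (IsU g ∧ b = 0) := by
  have hrs : r ≠ r + 2 := by
    intro e
    have h5 : (2 : ZMod 4) = 0 := by linear_combination -e
    exact absurd h5 (by decide)
  obtain ⟨k, hk⟩ := h
  have hu : (g + b) ∈ gr (k : ZMod 4) := by
    rcases hk with hk | hk <;> rw [hk]
    · exact gr_T k
    · exact neg_mem (gr_T k)
  have hU : IsU (g + b) := ⟨k, hk⟩
  have hne : g + b ≠ 0 := by
    have hT : (T k : LaurentPolynomial ℤ) ≠ 0 := by
      intro e
      have := congrArg (fun x : LaurentPolynomial ℤ => x.coeff k) e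
      simp at this
    rcases hk with hk | hk <;> rw [hk]
    · exact hT
    · exact neg_ne_zero.2 hT
  by_cases hr : (k : ZMod 4) = r
  · rw [hr] at hu
    obtain ⟨e1, e2⟩ := gr_split hrs h1 h2 hu (add_comm _ _)
    exact Or.inl ⟨e2, by rw [e1]; exact hU⟩
  · by_cases hs : (k : ZMod 4) = r + 2
    · rw [hs] at hu
      obtain ⟨e1, e2⟩ := gr_split hrs.symm h2 h1 hu rfl
      exact Or.inr ⟨by rw [e1]; exact hU, e2⟩
    · exfalso
      apply hne
      apply LaurentPolynomial.ext
      intro n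
      show (g + b).coeff n = 0
      by_cases hn : (n : ZMod 4) = k
      · rw [AddMonoidAlgebra.coeff_add, Finsupp.add_apply, gr_coeff h1 (by rw [hn]; exact hr),
          gr_coeff h2 (by rw [hn]; exact hs), add_zero]
      · exact gr_coeff hu hn

/-- [Kbr] the bracket of the knotoid of a tangle with the bracket pair `(g, b)` -/
def St_Kbr' : Prop := ∀ (D : List KSlice) (w : Word) (g b : LP), ARB.Ok w 2 2 →
  HasPair w g b → kforget D = kn w → kbracket D = g + b

/-- the pair of a leaf is graded -/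
def GrL (L : Lf) : Prop := ∃ r : ZMod 4, L.b ∈ gr r ∧ L.g ∈ gr (r + 2)

/-- [Gr] the pair of a combination of graded leaves is graded -/
def St_GrA : Prop := ∀ T : Alt, (∀ L, Alt.Has L T → GrL L) →
  ∃ r : ZMod 4, T.pair.2 ∈ gr r ∧ T.pair.1 ∈ gr (r + 2)

/-- [GrW] the leaves are graded -/
def St_GrW : Prop := ∀ w : Word, Pool.ALT.IsLeaf w → ∃ L : Lf, L.word = w ∧ GrL L

/-- every tree is a combination in the sense of `Alt` with graded leaves -/
theorem exAltG (T : Tree) (h : ∀ w, T.Leaf w → ∃ L : Lf, L.word = w ∧ GrL L) :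
    ∃ A : Alt, A.word = T.word ∧ (∀ L, Alt.Has L A → T.Leaf L.word) ∧
      ∀ L, Alt.Has L A → GrL L := by
  induction T with
  | zero => exact ⟨.zero, rfl, fun _ h => h, fun _ h => absurd h id⟩
  | cross p => exact ⟨.cross p, rfl, fun _ h => h, fun _ h => absurd h id⟩
  | leaf w =>
    obtain ⟨L, hL, hg⟩ := h w rfl
    refine ⟨.leaf L, hL, fun L' h' => ?_, fun L' h' => ?_⟩
    · have h2 : L' = L := h'
      rw [h2]
      exact hL
    · have h2 : L' = L := h'
      rw [h2]
      exact hg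
  | sum S T hS hT =>
    obtain ⟨A, a1, a2, a3⟩ := hS fun w hw => h w (Or.inl hw)
    obtain ⟨B, b1, b2, b3⟩ := hT fun w hw => h w (Or.inr hw)
    refine ⟨.sum A B, ?_, fun L hL => ?_, fun L hL => ?_⟩
    · simp only [Alt.word, Tree.word, a1, b1]
    · rcases hL with hL | hL
      · exact Or.inl (a2 L hL)
      · exact Or.inr (b2 L hL)
    · rcases hL with hL | hL
      · exact a3 L hL
      · exact b3 L hL
  | rot T hT =>
    obtain ⟨A, a1, a2, a3⟩ := hT h
    refine ⟨.rot A, ?_, fun L hL => a2 L hL, fun L hL => a3 L hL⟩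
    simp only [Alt.word, Tree.word, a1]

/-- THE THEOREM for knotoids -/
theorem kfin (hK : St_Kbr') (hG : St_GrA) (hW : St_GrW) (T : Tree)
    (hl : ∀ w, T.Leaf w → Pool.ALT.IsLeaf w) (D : List KSlice) (hD : kforget D = kn T.word)
    (hf : kPoly D = 1) : KIso 0 (kforget D) triv ∨ ∃ w, T.Leaf w ∧ BadLeaf w := by
  obtain ⟨A, a1, a2, a3⟩ := exAltG T fun w hw => hW w (hl w hw)
  have hU : IsU (kbracket D) := by
    have h2 : IsU (((-1 : LP)) ^ (kwrithe D).natAbs * LaurentPolynomial.T (-3 * kwrithe D)) := by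
      rcases neg_one_pow_eq_or LP (kwrithe D).natAbs with h3 | h3 <;> rw [h3]
      · rw [one_mul]
        exact IsU.T _
      · rw [neg_one_mul]
        exact (IsU.T _).neg
    have h4 : IsU ((((-1 : LP)) ^ (kwrithe D).natAbs * LaurentPolynomial.T (-3 * kwrithe D)) *
        kbracket D) := by
      have h3 : (((-1 : LP)) ^ (kwrithe D).natAbs * LaurentPolynomial.T (-3 * kwrithe D)) *
        kbracket D = 1 := hf
      rw [h3]
      exact IsU.one
    exact isU_right h4
  rw [← a1] at hD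
  rw [hK D A.word _ _ (Alt.okA A) (Alt.run A) hD] at hU
  obtain ⟨r, g1, g2⟩ := hG A a3
  have bad : Alt.Bad A → ∃ w, T.Leaf w ∧ BadLeaf w := by
    rintro ⟨L, h2, R, hR, h3, h4⟩
    exact ⟨L.word, a2 L h2, badLeaf_of hR h3 h4⟩
  rw [hD]
  rcases gr_cases g1 g2 hU with ⟨h1, h2⟩ | ⟨h1, h2⟩
  · rcases alt_zero A h1 h2 with h | h
    · exact Or.inl ((thm_Kis.1 _ _ (Alt.okA A) h).trans thm_Kis.2.1)
    · exact Or.inr (bad h)
  · rcases alt_inf A h2 h1 with h | h
    · exact Or.inl ((thm_Kis.1 _ _ (Alt.okA A) h).trans thm_Kis.2.2)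
    · exact Or.inr (bad h)

end Pool.Agent.ALK
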