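import Pool.Agent.ARK.Alg
import Pool.Agent.ALT.Ind.Alt
import Pool.Agent.ALT.Mo.All

/-!
# ALK: the grading of the bracket pair of a combination of leaves

The coefficients `γ`, `β` of a combination of alternating leaves have exponents in one class
modulo `4` each, and the two classes are different. So `γ + β` is a unit only if one of the
coefficients vanishes.
-/

set_option autoImplicit false

namespace Pool.Agent.ALK

open LaurentPolynomial Pool.Agent.Helper2 Pool.Agent.ARB Pool.Agent.ARK Pool.Agent.ALT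

private theorem gr_neg {r : ZMod 4} {f : LP} (hf : f ∈ gr r) : -f ∈ gr r := neg_mem hf

private theorem gr_u4 (e : Bool) : ((Pool.ALT.u4 e : LPˣ) : LP) ∈ gr 0 := by
  show -T (4 * Pool.ALT.sg e) ∈ gr 0
  refine gr_neg (gr_T' ?_)
  push_cast
  rw [show (4 : ZMod 4) = 0 by decide, zero_mul]

private theorem gr_u4i (e : Bool) : (((Pool.ALT.u4 e)⁻¹ : LPˣ) : LP) ∈ gr 0 := by
  show -T (-(4 * Pool.ALT.sg e)) ∈ gr 0
  refine gr_neg (gr_T' ?_)
  push_cast
  rw [show (4 : ZMod 4) = 0 by decide, zero_mul, neg_zero]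

private theorem gr_one : (1 : LP) ∈ gr 0 := by
  rw [← T_zero]
  exact gr_T' (by norm_num)

private theorem gr_pow {f : LP} (hf : f ∈ gr 0) (k : ℕ) : f ^ k ∈ gr 0 := by
  induction k with
  | zero => rw [pow_zero]; exact gr_one
  | succ k ih => rw [pow_succ]; exact gr_mul ih hf (add_zero _)

private theorem gr_zpow (e : Bool) (n : ℤ) : ((Pool.ALT.u4 e ^ n : LPˣ) : LP) ∈ gr 0 := by
  rcases n with k | k
  · show ((Pool.ALT.u4 e ^ (k : ℤ) : LPˣ) : LP) ∈ gr 0
    rw [zpow_natCast, Units.val_pow_eq_pow_val]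
    exact gr_pow (gr_u4 e) k
  · rw [zpow_negSucc, ← inv_pow, Units.val_pow_eq_pow_val]
    exact gr_pow (gr_u4i e) (k + 1)

/-- the substitution `s = -A ^ (± 4)` has values with exponents divisible by `4` -/
theorem phi_gr (e : Bool) (f : LP) : Pool.ALT.phi e f ∈ gr 0 := by
  induction f using LaurentPolynomial.induction_on' with
  | add p q hp hq =>
    rw [map_add]
    exact add_mem hp hq
  | C_mul_T n a =>
    have h1 : Pool.ALT.phi e (C a * T n) = a • ((Pool.ALT.u4 e ^ n : LPˣ) : LP) := by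
      rw [map_mul]
      have h2 : Pool.ALT.phi e (C a) = (a : LP) := by
        rw [Pool.ALT.phi, LaurentPolynomial.eval₂_C]
        rfl
      have h3 : Pool.ALT.phi e (T n) = ((Pool.ALT.u4 e ^ n : LPˣ) : LP) := by
        rw [Pool.ALT.phi, LaurentPolynomial.eval₂_T]
      rw [h2, h3, zsmul_eq_mul]
    rw [h1]
    exact zsmul_mem (gr_zpow e n) a

private theorem gr_ne : (1 : LP) - loopVal * loopVal ≠ 0 := by
  intro h
  set φ : LP →+* ZMod 2 := LaurentPolynomial.eval₂ (Int.castRingHom (ZMod 2)) 1 with hφ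
  have h1 : φ loopVal = 0 := by
    rw [loopVal, map_neg, map_add, hφ, LaurentPolynomial.eval₂_T, LaurentPolynomial.eval₂_T]
    decide
  have h2 := congrArg φ h
  rw [map_sub, map_one, map_mul, h1, map_zero] at h2
  revert h2
  decide

/-- the coefficients of a tangle are unique -/
theorem pair_unique {w : Word} {g b g' b' : LP} (h : HasPair w g b) (h' : HasPair w g' b') :
    g = g' ∧ b = b' := by
  obtain ⟨V, _, _, M, hM, hinj⟩ := thm_Vert
  have h0 := M.supp_init
  have h2 : M.Supp 2 (M.cup 0 M.init) := M.supp_cup 0 0 _ (by omega) h0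
  have h4 : M.Supp 4 (M.cup 1 (M.cup 0 M.init)) := M.supp_cup 2 1 _ (by omega) h2
  have h6 : M.cap 0 (M.cup 1 (M.cup 0 M.init)) = M.cup 0 M.init := M.rel3 2 0 _ h2 (by omega)
  have h7 : M.cap 1 (M.cup 1 (M.cup 0 M.init)) = loopVal • M.cup 0 M.init := by
    rw [← hM.del]
    exact M.rel1 2 1 _ h2 (by omega)
  have h8 : M.cap 1 (M.cup 0 (M.cup 0 M.init)) = M.cup 0 M.init := M.rel2 2 0 _ h2 (by omega)
  have h8' : M.cap 0 (M.cup 0 (M.cup 0 M.init)) = loopVal • M.cup 0 M.init := by
    rw [← hM.del]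
    exact M.rel1 2 0 _ h2 (by omega)
  have h9 : M.cap 0 (M.cup 0 M.init) = loopVal • M.init := by
    rw [← hM.del]
    exact M.rel1 0 0 _ h0 (by omega)
  have h5 := (h V M hM 0 4 _ (by omega) h4).symm.trans (h' V M hM 0 4 _ (by omega) h4)
  rw [h6] at h5
  have e1 : g + loopVal * b = g' + loopVal * b' := by
    have e := congrArg (fun x => M.cap 0 (M.cap 1 x)) h5
    simp only [map_add, map_smul] at e
    rw [h7, h8] at e
    simp only [map_smul] at e
    rw [h9] at e
    have e2 : (loopVal * (g + loopVal * b)) • M.init = (loopVal * (g' + loopVal * b')) • M.init := by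
      rw [show (loopVal * (g + loopVal * b)) • M.init =
        b • loopVal • loopVal • M.init + g • loopVal • M.init by module, e]
      module
    exact mul_left_cancel₀ pairRun_loopVal_ne (hinj _ _ e2)
  have e3 : b + loopVal * g = b' + loopVal * g' := by
    have e := congrArg (fun x => M.cap 0 (M.cap 0 x)) h5
    simp only [map_add, map_smul] at e
    rw [h6, h8'] at e
    simp only [map_smul] at e
    rw [h9] at e
    have e2 : (loopVal * (b + loopVal * g)) • M.init = (loopVal * (b' + loopVal * g')) • M.init := by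
      rw [show (loopVal * (b + loopVal * g)) • M.init =
        b • loopVal • M.init + g • loopVal • loopVal • M.init by module, e]
      module
    exact mul_left_cancel₀ pairRun_loopVal_ne (hinj _ _ e2)
  have hb : b = b' := by
    apply mul_left_cancel₀ gr_ne
    linear_combination e3 - loopVal * e1
  refine ⟨?_, hb⟩
  rw [hb] at e1
  linear_combination e1

private theorem two_sg (e : Bool) : (2 : ZMod 4) * ((Pool.ALT.sg e : ℤ) : ZMod 4) = 2 := by
  cases e <;> decide

/-- the grading of the pair of a leaf -/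
theorem leaf_gr {w : Word} (hw : Pool.ALT.IsLeaf w) {g b : LP} (h : HasPair w g b) :
    ∃ r : ZMod 4, b ∈ gr r ∧ g ∈ gr (r + 2) := by
  obtain ⟨e, he⟩ := Pool.ALT.leaf_pair hw
  obtain ⟨rfl, rfl⟩ := pair_unique h he
  refine ⟨_, gr_mul (gr_T _) (phi_gr e _) (add_zero _), gr_mul (gr_T _) (phi_gr e _) ?_⟩
  rw [add_zero]
  have h2 := two_sg e
  have h4 : (4 : ZMod 4) = 0 := by decide
  push_cast
  linear_combination (-1 : ZMod 4) * h2 - h4 

/-- the grading of the pair of a combination of leaves -/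
theorem alt_gr (R : Alt) (hR : ∀ L : Lf, R.Has L → Pool.ALT.IsLeaf L.word) :
    ∃ r : ZMod 4, R.pair.2 ∈ gr r ∧ R.pair.1 ∈ gr (r + 2) := by
  induction R with
  | zero =>
      refine ⟨0, ?_, zero_mem _⟩
      show (1 : LaurentPolynomial ℤ) ∈ gr 0
      rw [← T_zero]
      exact gr_T' (by norm_num)
  | cross p =>
      cases p
      · exact ⟨-1, gr_T' (by norm_num), gr_T' (by decide)⟩
      · exact ⟨1, gr_T' (by norm_num), gr_T' (by decide)⟩
  | leaf L => exact leaf_gr (hR L rfl) L.run
  | sum S R ihS ihR =>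
      obtain ⟨r, h1, h2⟩ := ihS fun L hL => hR L (Or.inl hL)
      obtain ⟨s, h3, h4⟩ := ihR fun L hL => hR L (Or.inr hL)
      refine ⟨r + s, gr_mul h1 h3 rfl, ?_⟩
      refine add_mem (add_mem (gr_mul h2 h3 (by ring)) (gr_mul h1 h4 (by ring))) ?_
      refine gr_mul gr_loop (gr_mul h2 h4 rfl) ?_
      have h5 : (2 : ZMod 4) + 2 = 0 := by decide
      linear_combination h5
  | rot S ih =>
      obtain ⟨r, h1, h2⟩ := ih fun L hL => hR L hL
      refine ⟨r + 2, h2, ?_⟩
      have h5 : (2 : ZMod 4) + 2 = 0 := by decide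
      have h6 : r + 2 + 2 = r := by linear_combination h5
      rw [h6]
      exact h1

/-- If `γ + β` is a unit, then one of them is `0` and the other one is the unit. -/
private theorem gr_cs {g b : LP} (hr : ∃ r : ZMod 4, b ∈ gr r ∧ g ∈ gr (r + 2)) (h : IsU (g + b)) :
    (g = 0 ∧ IsU b) ∨ (IsU g ∧ b = 0) := by
  obtain ⟨r, h1, h2⟩ := hr
  have hrs : r ≠ r + 2 := by
    intro e
    have h5 : (2 : ZMod 4) = 0 := by linear_combination -e
    exact absurd h5 (by decide)
  obtain ⟨k, hk⟩ := h
  have hu : (g + b) ∈ gr (k : ZMod 4) := by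
    rcases hk with hk | hk <;> rw [hk]
    · exact gr_T k
    · exact neg_mem (gr_T k)
  have hU : IsU (g + b) := ⟨k, hk⟩
  have hne : g + b ≠ 0 := by
    have hT : (T k : LaurentPolynomial ℤ) ≠ 0 := by
      intro e
      have := congrArg (fun x : LaurentPolynomial ℤ => x.coeff k) e
      simp at this
    rcases hk with hk | hk <;> rw [hk]
    · exact hT
    · exact neg_ne_zero.2 hT
  by_cases hr : (k : ZMod 4) = r
  · rw [hr] at hu
    obtain ⟨e1, e2⟩ := gr_split hrs h1 h2 hu (add_comm _ _)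
    exact Or.inl ⟨e2, by rw [e1]; exact hU⟩
  · by_cases hs : (k : ZMod 4) = r + 2
    · rw [hs] at hu
      obtain ⟨e1, e2⟩ := gr_split hrs.symm h2 h1 hu rfl
      exact Or.inr ⟨by rw [e1]; exact hU, e2⟩
    · exfalso
      apply hne
      apply LaurentPolynomial.ext
      intro n
      show (g + b).coeff n = 0
      by_cases hn : (n : ZMod 4) = k
      · rw [AddMonoidAlgebra.coeff_add, Finsupp.add_apply, gr_coeff h1 (by rw [hn]; exact hr),
          gr_coeff h2 (by rw [hn]; exact hs), add_zero]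
      · exact gr_coeff hu hn

/-- If `γ + β` is a unit, then one of them is `0` and the other one is the unit. -/
theorem alt_cases (R : Alt) (hR : ∀ L : Lf, R.Has L → Pool.ALT.IsLeaf L.word)
    (h : IsU (R.pair.1 + R.pair.2)) :
    (R.pair.1 = 0 ∧ IsU R.pair.2) ∨ (IsU R.pair.1 ∧ R.pair.2 = 0) :=
  gr_cs (alt_gr R hR) h

end Pool.Agent.ALK
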