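import Pool.Agent.ARK.KdS
import Pool.Agent.ARK.KbA
import Pool.Agent.ARK.KbB
import Pool.Agent.ALT.Ind.Alt

/-!
# The bracket of the knotoid of a tangle with a given bracket pair
-/

set_option autoImplicit false

namespace Pool.Agent.ALK

open LaurentPolynomial Pool.Agent.ARB Pool.Agent.Helper2 Pool.Agent.ARK

private theorem ak_add (w : List Slice) : ∀ (n m j : ℕ), Helper2.Ok w n m →
    Helper2.Ok w (n + j) (m + j) := by
  induction w with
  | nil =>
    intro n m j h
    have h' : n = m := h
    subst h'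
    rfl
  | cons s w ih =>
    intro n m j h
    cases s with
    | cup i u =>
      refine ⟨h.1.trans (Nat.le_add_right _ _), ?_⟩
      have := ih _ _ j h.2
      rwa [Nat.add_right_comm] at this
    | cap i =>
      refine ⟨h.1.trans (Nat.le_add_right _ _), ?_⟩
      have h1 : i + 2 ≤ n := h.1
      have := ih _ _ j h.2
      have e : n - 2 + j = n + j - 2 := by omega
      rwa [e] at this
    | cross i p => exact ⟨h.1.trans (Nat.le_add_right _ _), ih _ _ j h.2⟩

/-- the left side of [KbB] for a diagram `t` without crossings -/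
private theorem ak_lhs (w : List Slice) (i j : ℕ) :
    ((states w).map fun s => (T s.1 : LaurentPolynomial ℤ) * loopVal ^
      (curves ([.cup 0 true, .cup 1 true] ++ (s.2 ++ [.cap i, .cap j])) - 1)).sum =
    bracket ([.cup 0 true, .cup 1 true] ++ (w ++ [.cap i, .cap j])) := by
  unfold bracket
  rw [List.cons_append, List.cons_append, List.nil_append, states, List.map_map, states,
    List.map_map]
  · have h := sum_states_append w [.cap i, .cap j] fun a l =>
      (T a : LaurentPolynomial ℤ) * loopVal ^
        (curves (.cup 0 true :: .cup 1 true :: l) - 1)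
    refine Eq.trans ?_ h.symm
    congr 1
    apply List.map_congr_left
    intro s _
    simp [states]
  · intro j p; exact Slice.noConfusion
  · intro j p; exact Slice.noConfusion

private theorem ak_ok {w t : List Slice} (h : Helper2.Ok w 2 2) (ht : Helper2.Ok t 4 0) :
    Helper2.Ok ([.cup 0 true, .cup 1 true] ++ (w ++ t)) 0 0 :=
  ⟨le_rfl, by decide, ok_append w t 4 4 0 (ak_add w 2 2 2 h) ht⟩

private theorem ak_ne : (1 : LaurentPolynomial ℤ) - loopVal * loopVal ≠ 0 := by
  intro h
  set φ : LP →+* ZMod 2 := LaurentPolynomial.eval₂ (Int.castRingHom (ZMod 2)) 1 with hφ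
  have h1 : φ loopVal = 0 := by
    rw [loopVal, map_neg, map_add, hφ, LaurentPolynomial.eval₂_T, LaurentPolynomial.eval₂_T]
    decide
  have h2 := congrArg φ h
  rw [map_sub, map_one, map_mul, h1, map_zero] at h2
  revert h2
  decide

private theorem ak_forget (w t : List Slice) :
    forget ([.cup 0 true, .cup 1 true] ++ (w ++ t)) = pU 0 :: pU 1 :: (forget w ++ forget t) := by
  simp [forget]

/-- the vector of a tangle with a given bracket pair -/
private theorem ak_KbC (w : List Slice) (v : Word) (g b : LP) (hp : Pool.Agent.ALT.HasPair v g b)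
    (hw : Helper2.Ok w 2 2) (hR : forget w = v) :
    ((states w).map fun s => (T s.1 : LaurentPolynomial ℤ) * loopVal ^
      (curves ([.cup 0 true, .cup 1 true] ++ (s.2 ++ [.cross 0 true, .cap 1, .cap 0])) - 1)).sum =
    g + b := by
  obtain ⟨x, y, hxy⟩ := thm_KbB w hw
  obtain ⟨V, _, _, M, hM, hinj⟩ := thm_Vert
  have ok1 : Helper2.Ok ([.cap 1, .cap 0] : List Slice) 4 0 := by
    simp [Helper2.Ok]
  have ok2 : Helper2.Ok ([.cap 0, .cap 0] : List Slice) 4 0 := by
    simp [Helper2.Ok]
  have ok3 : Helper2.Ok ([.cross 0 true, .cap 1, .cap 0] : List Slice) 4 0 := by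
    simp [Helper2.Ok]
  have h0 := M.supp_init
  have h2 : M.Supp 2 (M.cup 0 M.init) := M.supp_cup 0 0 _ (by omega) h0
  have h4 : M.Supp 4 (M.cup 1 (M.cup 0 M.init)) := M.supp_cup 2 1 _ (by omega) h2
  have h5 := hp V M hM 0 4 _ (by omega) h4
  rw [sh_zero] at h5
  have h6 : M.cap 0 (M.cup 1 (M.cup 0 M.init)) = M.cup 0 M.init := M.rel3 2 0 _ h2 (by omega)
  have h9 : M.cap 0 (M.cup 0 M.init) = loopVal • M.init := by
    rw [← hM.del]
    exact M.rel1 0 0 _ h0 (by omega)
  -- the numerator closure
  have b1 : bracket ([.cup 0 true, .cup 1 true] ++ (w ++ [.cap 1, .cap 0])) =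
      g + loopVal * b := by
    have e1 := thm_BrRun V M hM _ (by simp) (ak_ok hw ok1)
    have e3 : forget ([.cup 0 true, .cup 1 true] ++ (w ++ [.cap 1, .cap 0])) =
        pU 0 :: pU 1 :: (v ++ [pN 1, pN 0]) := by
      rw [ak_forget, hR]
      rfl
    have e : runW M (pU 0 :: pU 1 :: (v ++ [pN 1, pN 0])) M.init =
        M.cap 0 (M.cap 1 (runW M v (M.cup 1 (M.cup 0 M.init)))) := by
      rw [pairRun_cons, pairRun_cons, pairRun_append]
      rfl
    have h7 : M.cap 1 (M.cup 1 (M.cup 0 M.init)) = loopVal • M.cup 0 M.init := by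
      rw [← hM.del]
      exact M.rel1 2 1 _ h2 (by omega)
    have h8 : M.cap 1 (M.cup 0 (M.cup 0 M.init)) = M.cup 0 M.init := M.rel2 2 0 _ h2 (by omega)
    have e2 : runW M (pU 0 :: pU 1 :: (v ++ [pN 1, pN 0])) M.init =
        (loopVal * (g + loopVal * b)) • M.init := by
      rw [e, h5, h6]
      simp only [map_add, map_smul]
      rw [h7, h8]
      simp only [map_smul]
      rw [h9]
      module
    rw [e3, e2] at e1
    exact (mul_left_cancel₀ pairRun_loopVal_ne (hinj _ _ e1)).symm
  -- the denominator closure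
  have b2 : bracket ([.cup 0 true, .cup 1 true] ++ (w ++ [.cap 0, .cap 0])) =
      b + loopVal * g := by
    have e1 := thm_BrRun V M hM _ (by simp) (ak_ok hw ok2)
    have e3 : forget ([.cup 0 true, .cup 1 true] ++ (w ++ [.cap 0, .cap 0])) =
        pU 0 :: pU 1 :: (v ++ [pN 0, pN 0]) := by
      rw [ak_forget, hR]
      rfl
    have e : runW M (pU 0 :: pU 1 :: (v ++ [pN 0, pN 0])) M.init =
        M.cap 0 (M.cap 0 (runW M v (M.cup 1 (M.cup 0 M.init)))) := by
      rw [pairRun_cons, pairRun_cons, pairRun_append]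
      rfl
    have h8 : M.cap 0 (M.cup 0 (M.cup 0 M.init)) = loopVal • M.cup 0 M.init := by
      rw [← hM.del]
      exact M.rel1 2 0 _ h2 (by omega)
    have e2 : runW M (pU 0 :: pU 1 :: (v ++ [pN 0, pN 0])) M.init =
        (loopVal * (b + loopVal * g)) • M.init := by
      rw [e, h5, h6]
      simp only [map_add, map_smul]
      rw [h6, h8]
      simp only [map_smul]
      rw [h9]
      module
    rw [e3, e2] at e1
    exact (mul_left_cancel₀ pairRun_loopVal_ne (hinj _ _ e1)).symm
  have c1 : curves (mw false ++ [.cap 1, .cap 0]) = 1 := by decide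
  have c2 : curves (mw true ++ [.cap 1, .cap 0]) = 2 := by decide
  have c3 : curves (mw false ++ [.cap 0, .cap 0]) = 2 := by decide
  have c4 : curves (mw true ++ [.cap 0, .cap 0]) = 1 := by decide
  have c5 : curves (mw false ++ [.cross 0 true, .cap 1, .cap 0]) = 1 := by decide
  have c6 : curves (mw true ++ [.cross 0 true, .cap 1, .cap 0]) = 1 := by decide
  have g1 := hxy _ ok1
  have g2 := hxy _ ok2
  have g3 := hxy _ ok3
  rw [ak_lhs, b1, c1, c2] at g1
  rw [ak_lhs, b2, c3, c4] at g2
  rw [g3, c5, c6]
  simp only [Nat.sub_self, pow_zero, mul_one, show 2 - 1 = 1 from rfl, pow_one] at g1 g2 ⊢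
  have hy : (1 - loopVal * loopVal) * y = (1 - loopVal * loopVal) * b := by
    linear_combination loopVal * g1 - g2
  have hy' : y = b := mul_left_cancel₀ ak_ne hy
  have hx : x = g := by
    rw [hy'] at g1
    linear_combination -g1
  rw [hx, hy']

private def akF (s : KSlice) : KPiece := match s with
  | .cup i _ => ⟨.U, i⟩
  | .cap i => ⟨.N, i⟩
  | .cross i p => ⟨.X p, i⟩
  | .born i _ => ⟨.B, i⟩
  | .dies i => ⟨.E, i⟩

private theorem ak_forgetW (D : List KSlice) : kforget D = D.map akF := rfl

private theorem ak_okW : ∀ (w : List Slice) (n m : ℕ), ARB.Ok (forget w) n m →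
    Helper2.Ok w n m := by
  intro w
  induction w with
  | nil => intro n m h; exact h
  | cons s w ih =>
    intro n m h
    cases s with
    | cup i u => exact ⟨h.1, ih _ _ h.2⟩
    | cap i => exact ⟨h.1, ih _ _ h.2⟩
    | cross i p =>
      refine ⟨h.1, ?_⟩
      have h1 : i + 2 ≤ n := h.1
      have h3 : Helper2.Ok w (n - 2 + 2) m := ih _ _ h.2
      have e : n - 2 + 2 = n := by omega
      rwa [e] at h3

/-- pieces over unoriented pieces without endpoints -/
private theorem ak_lift (v : Word) : ∀ D : List KSlice, D.map akF = emb v →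
    ∃ w : List Slice, D = up w ∧ forget w = v := by
  induction v with
  | nil =>
    intro D h
    have h1 : D = [] := List.map_eq_nil_iff.1 h
    exact ⟨[], h1, rfl⟩
  | cons s v ih =>
    intro D h
    obtain ⟨k, i⟩ := s
    have h' : D.map akF = ⟨Kind.emb k, i⟩ :: emb v := h
    obtain ⟨a, D', rfl, h1, h2⟩ := List.map_eq_cons_iff.1 h'
    obtain ⟨w, rfl, rfl⟩ := ih D' h2
    cases a with
    | cup j u =>
      cases k with
      | U =>
        have e : j = i := by simpa [akF, Kind.emb] using h1
        subst e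
        exact ⟨.cup j u :: w, rfl, rfl⟩
      | N => simp [akF, Kind.emb] at h1
      | X p => simp [akF, Kind.emb] at h1
    | cap j =>
      cases k with
      | U => simp [akF, Kind.emb] at h1
      | N =>
        have e : j = i := by simpa [akF, Kind.emb] using h1
        subst e
        exact ⟨.cap j :: w, rfl, rfl⟩
      | X p => simp [akF, Kind.emb] at h1
    | cross j q =>
      cases k with
      | U => simp [akF, Kind.emb] at h1
      | N => simp [akF, Kind.emb] at h1
      | X p =>
        have e : q = p ∧ j = i := by simpa [akF, Kind.emb] using h1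
        obtain ⟨rfl, rfl⟩ := e
        exact ⟨.cross j q :: w, rfl, rfl⟩
    | born j u => cases k <;> simp [akF, Kind.emb] at h1
    | dies j => cases k <;> simp [akF, Kind.emb] at h1

/-- the pieces of the knotoid of a tangle -/
private theorem ak_split (D : List KSlice) (v : Word) (h : kforget D = kn v) :
    ∃ (w : List Slice) (u₀ u₁ : Bool), forget w = v ∧
      D = .born 0 u₀ :: .cup 1 u₁ :: (up w ++ [.dies 1, .cap 0]) := by
  rw [ak_forgetW, kn] at h
  obtain ⟨a, D₁, rfl, h1, h2⟩ := List.map_eq_cons_iff.1 h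
  obtain ⟨b, D₂, rfl, h3, h4⟩ := List.map_eq_cons_iff.1 h2
  obtain ⟨D₃, D₄, rfl, h5, h6⟩ := List.map_eq_append_iff.1 h4
  obtain ⟨c, D₅, rfl, h7, h8⟩ := List.map_eq_cons_iff.1 h6
  obtain ⟨d, D₆, rfl, h9, h10⟩ := List.map_eq_cons_iff.1 h8
  have h11 : D₆ = [] := List.map_eq_nil_iff.1 h10
  subst h11
  obtain ⟨w, rfl, hw⟩ := ak_lift v D₃ h5
  cases a <;> simp [akF] at h1
  subst h1
  cases b <;> simp [akF] at h3
  subst h3
  cases c <;> simp [akF] at h7
  subst h7
  cases d <;> simp [akF] at h9
  subst h9
  exact ⟨w, _, _, hw, rfl⟩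

private theorem ak_states (w : List Slice) :
    kstates (up w ++ [.dies 1, .cap 0]) =
      (states w).map fun s => (s.1, up s.2 ++ [.dies 1, .cap 0]) := by
  induction w with
  | nil => rfl
  | cons s w ih =>
    cases s with
    | cup i u =>
      show (kstates (up w ++ [.dies 1, .cap 0])).map (fun t => (t.1, KSlice.cup i u :: t.2)) =
        ((states w).map fun t => (t.1, Slice.cup i u :: t.2)).map
          fun s => (s.1, up s.2 ++ [.dies 1, .cap 0])
      rw [ih, List.map_map, List.map_map]
      rfl
    | cap i =>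
      show (kstates (up w ++ [.dies 1, .cap 0])).map (fun t => (t.1, KSlice.cap i :: t.2)) =
        ((states w).map fun t => (t.1, Slice.cap i :: t.2)).map
          fun s => (s.1, up s.2 ++ [.dies 1, .cap 0])
      rw [ih, List.map_map, List.map_map]
      rfl
    | cross i p =>
      show ((kstates (up w ++ [.dies 1, .cap 0])).flatMap fun s =>
          [(s.1 + (if p then 1 else -1), s.2),
           (s.1 - (if p then 1 else -1), KSlice.cap i :: KSlice.cup i true :: s.2)]) =
        ((states w).flatMap fun s =>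
          [(s.1 + (if p then 1 else -1), s.2),
           (s.1 - (if p then 1 else -1), Slice.cap i :: Slice.cup i true :: s.2)]).map
          fun s => (s.1, up s.2 ++ [.dies 1, .cap 0])
      rw [ih, List.flatMap_map, List.map_flatMap]
      rfl

/-- [Kbr] the bracket of the knotoid of a tangle with the bracket pair `(g, b)` is `g + b`. -/
theorem alk_Kbr (D : List KSlice) (w : Word) (hw : ARB.Ok w 2 2) (g b : LP)
    (hp : Pool.Agent.ALT.HasPair w g b) (hD : kforget D = kn w) : kbracket D = g + b := by
  obtain ⟨v, u₀, u₁, hv, rfl⟩ := ak_split D w hD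
  have hok : Helper2.Ok v 2 2 := ak_okW v 2 2 (by rw [hv]; exact hw)
  rw [← ak_KbC v w g b hp hok hv]
  have e : kstates (.born 0 u₀ :: .cup 1 u₁ :: (up v ++ [.dies 1, .cap 0])) =
      (states v).map fun s => (s.1, KSlice.born 0 u₀ :: KSlice.cup 1 u₁ ::
        (up s.2 ++ [.dies 1, .cap 0])) := by
    show ((kstates (up v ++ [.dies 1, .cap 0])).map (fun t => (t.1, KSlice.cup 1 u₁ :: t.2))).map
      (fun t => (t.1, KSlice.born 0 u₀ :: t.2)) = _
    rw [ak_states, List.map_map, List.map_map]
    rfl
  rw [kbracket, e, List.map_map]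
  congr 1
  apply List.map_congr_left
  intro s hs
  obtain ⟨h1, h2⟩ := states_ok v 2 2 hok s hs
  have h3 := thm_KbA s.2 h1 h2
  rw [h3, Nat.add_sub_cancel]
  rfl

end Pool.Agent.ALK
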