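import Pool.Agent.ALK.Gr
import Pool.Agent.ALK.Kbr
import Pool.Agent.ALK.Fin

/-!
# ALK: the three hypotheses of `kfin`
-/

set_option autoImplicit false

namespace Pool.Agent.ALK

open LaurentPolynomial Pool.Agent.Helper2 Pool.Agent.ARB Pool.Agent.ARK Pool.Agent.ALT

theorem thm_Kbr' : St_Kbr' := fun D w g b hw hp hD => alk_Kbr D w hw g b hp hD

theorem thm_GrA : St_GrA := by
  intro R hR
  induction R with
  | zero =>
      refine ⟨0, ?_, zero_mem _⟩
      show (1 : LaurentPolynomial ℤ) ∈ gr 0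
      rw [← T_zero]
      exact gr_T' (by norm_num)
  | cross p =>
      cases p
      · exact ⟨-1, gr_T' (by norm_num), gr_T' (by decide)⟩
      · exact ⟨1, gr_T' (by norm_num), gr_T' (by decide)⟩
  | leaf L => exact hR L rfl
  | sum S R ihS ihR =>
      obtain ⟨r, h1, h2⟩ := ihS fun L hL => hR L (Or.inl hL)
      obtain ⟨s, h3, h4⟩ := ihR fun L hL => hR L (Or.inr hL)
      refine ⟨r + s, gr_mul h1 h3 rfl, ?_⟩
      refine add_mem (add_mem (gr_mul h2 h3 (by ring)) (gr_mul h1 h4 (by ring))) ?_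
      refine gr_mul gr_loop (gr_mul h2 h4 rfl) ?_
      have h5 : (2 : ZMod 4) + 2 = 0 := by decide
      linear_combination h5
  | rot S ih =>
      obtain ⟨r, h1, h2⟩ := ih fun L hL => hR L hL
      refine ⟨r + 2, h2, ?_⟩
      have h5 : (2 : ZMod 4) + 2 = 0 := by decide
      have h6 : r + 2 + 2 = r := by linear_combination h5
      rw [h6]
      exact h1

theorem thm_GrW : St_GrW := by
  intro w hw
  obtain ⟨L, hL⟩ := all_leaf w hw
  refine ⟨L, hL, ?_⟩
  have h : HasPair w L.g L.b := by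
    rw [← hL]
    exact L.run
  exact leaf_gr hw h

/-- THE THEOREM for knotoids, without hypotheses -/
theorem kfin_all (T : Tree) (hl : ∀ w, T.Leaf w → Pool.ALT.IsLeaf w) (D : List KSlice)
    (hD : kforget D = kn T.word) (hf : kPoly D = 1) :
    KIso 0 (kforget D) triv ∨ ∃ w, T.Leaf w ∧ BadLeaf w :=
  kfin thm_Kbr' thm_GrA thm_GrW T hl D hD hf

end Pool.Agent.ALK
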