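import Pool.Agent.ALT.Ind.Main
import Pool.Agent.ARK.All

/-!
# ALK: combinations of leaves as tangles: local knots, rel ends

As `ALT/Ind/Main.lean`, but with isotopy of tangles instead of isotopy of closures; long knots with
a trivial closure are trivial by `ARK.all_Long`.
-/

set_option autoImplicit false

namespace Pool.Agent.ALK

open Pool.Agent Pool.Agent.ARB Pool.Agent.ARK Pool.Agent.ALT LaurentPolynomial Pool.Agent.Helper2

theorem longK : St_LongK := fun C hC hD => (all_Long C hC hD).1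

theorem un_DW {B : Alt} (u : Alt.Un (.sum B Alt.inf)) : Iso 0 (DW B.word) O1 := by
  have h := top.t7 B.word (Alt.okA B)
  have h2 : (Alt.sum B Alt.inf).word = B.word ++ rotW [] := by
    simp only [Alt.word, Alt.inf, Alt.of_word]
    rfl
  unfold Alt.Un at u
  rw [h2] at u
  exact h.symm.trans u

theorem swapI : Iso 2 [pU 2, pN 0] [pN 0, pU 0] := by
  refine Relation.ReflTransGen.single
    ⟨[], [pU 2, pN 0], [pN 0, pU 0], [], 2, 2, rfl, rfl, rfl, ?_, ?_, ?_⟩
  · exact ⟨by decide, by decide, rfl⟩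
  · exact ⟨by decide, by decide, rfl⟩
  · exact Or.inr (ARB.Loc.swap .N .U 0 0)

theorem long1' {B : Alt} (u : Alt.Un (.sum B Alt.inf)) :
    Iso 2 (Alt.sum Alt.inf B).word Alt.inf.word := by
  have e : Alt.inf.word = [pU 2, pN 0] := by
    simp only [Alt.inf, Alt.of_word]
    rfl
  have h0 := longK B.word (Alt.okA B) (un_DW u)
  have h1 : Iso 2 ([pN 0] ++ (pU 0 :: B.word)) ([pN 0] ++ [pU 0]) :=
    Iso.left (k := 0) ⟨Nat.le_refl 2, rfl⟩ h0
  have h3 : Iso 2 ([pU 2, pN 0] ++ B.word) ([pN 0, pU 0] ++ B.word) := Iso.right swapI _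
  show Iso 2 (Alt.inf.word ++ B.word) Alt.inf.word
  rw [e]
  exact (h3.trans h1).trans swapI.symm

theorem long2' {B : Alt} (u : Alt.Un (.sum B Alt.inf)) :
    Iso 2 (Alt.sum B Alt.inf).word Alt.inf.word := by
  have e : Alt.inf.word = [pU 2, pN 0] := by
    simp only [Alt.inf, Alt.of_word]
    rfl
  have h1 := long_cap longK B.word (Alt.okA B) (un_DW u)
  have h2 : Iso 2 ((B.word ++ [pN 0]) ++ [pU 0]) ([pN 0] ++ [pU 0]) := Iso.right h1 _
  have h3 : Iso 2 (B.word ++ [pU 2, pN 0]) (B.word ++ [pN 0, pU 0]) :=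
    Iso.left (Alt.okA B) swapI
  rw [List.append_assoc] at h2
  show Iso 2 (B.word ++ Alt.inf.word) Alt.inf.word
  rw [e]
  exact (h3.trans h2).trans swapI.symm

/-- `T` is `T0` with local knots, rel ends -/
structure LocI (T T0 : Alt) (κ : LP) : Prop where
  loc : Alt.Loc T T0 κ
  iso : IsU κ → Iso 2 T.word T0.word ∨ Alt.Bad T

private theorem loc_infI {A B A0 B0 : Alt} {κA κB : LP} (hc : NT.Cop (A.nt.sum B.nt))
    (hA : LocI A A0 κA) (hB : LocI B B0 κB) (q0 : A0.nt.x.2 = 0) (o0 : A0.nt.J.Om = -1) :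
    Iso 2 A0.word Alt.inf.word ∧ NT.SS (A.nt.sum B.nt) Alt.inf.nt ∧
      (∀ C : Alt, ∃ u : LP, IsU u ∧
        Alt.brN (.sum (.sum A B) C) = u * (κA * κB * Alt.brD B0) * Alt.brN (.sum Alt.inf C)) ∧
      (IsU (κA * κB * Alt.brD B0) → (Iso 2 A.word A0.word ∧ Iso 2 B.word B0.word ∧
        Alt.Un (.sum B0 Alt.inf)) ∨ Alt.Bad (.sum A B)) := by
  have cA0 : NT.Cop A0.nt := by
    have h1 := hc.sum.1
    obtain ⟨u, v, huv⟩ := h1
    rcases hA.loc.ss with ⟨e1, e2⟩ | ⟨e1, e2⟩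
    · exact ⟨u, v, by rw [← e1, ← e2]; exact huv⟩
    · exact ⟨-u, -v, by rw [e1, e2] at huv; linarith⟩
  obtain ⟨A', hA', sA, iA⟩ := Alt.red_rat A0 hA.loc.red cA0 o0
  have qA' : A'.pq.2 = 0 := sA.q0.mp q0
  have iA2 : Iso 2 A0.word Alt.inf.word := by
    refine iA.trans ?_
    unfold Alt.inf
    rw [Alt.of_word]
    exact rat_iso top hA' infA_rat (slope_of_q (rat_om A' hA').1 (rat_om _ infA_rat).1 qA' rfl)
  have qA : A.nt.x.2 = 0 := hA.loc.ss.q0.mpr q0
  have qT : (A.nt.sum B.nt).x.2 = 0 := by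
    simp only [NT.sum]
    rw [qA, zero_mul]
  refine ⟨iA2, ?_, ?_, ?_⟩
  · have h1 := hc.zero qT
    have h2 : Alt.inf.nt.x = (1, 0) := by
      unfold Alt.inf
      rw [Alt.of_nt]
      simp [NT.of, infA, Arb.pq]
    rcases Int.natAbs_eq (A.nt.sum B.nt).x.1 with h3 | h3
    · refine Or.inl ⟨?_, ?_⟩
      · rw [h3, h1, h2]
        rfl
      · rw [qT, h2]
    · refine Or.inr ⟨?_, ?_⟩
      · rw [h3, h1, h2]
        rfl
      · rw [qT, h2, neg_zero]
  · intro C
    obtain ⟨u1, hu1, e1⟩ := hA.loc.br (.sum B C)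
    obtain ⟨u2, hu2, e2⟩ := Alt.br_iso (top.congN _ _ (Alt.isoL iA2 (.sum B C)))
    obtain ⟨u3, hu3, e3⟩ := Alt.br_D hB.loc
    refine ⟨u1 * u2 * u3, (hu1.mul hu2).mul hu3, ?_⟩
    rw [Alt.br_assoc, e1, e2, Alt.br_comm Alt.inf, Alt.br_inf, Alt.brD_sum, e3,
      Alt.br_comm Alt.inf, Alt.br_inf]
    ring
  · intro hU
    have h1 := isU_left hU
    have hD := isU_right hU
    have hκA := isU_left h1
    have hκB := isU_right h1
    rcases hA.iso hκA with lA | lA
    · rcases hB.iso hκB with lB | lB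
      · rw [← Alt.br_inf] at hD
        rcases Alt.close B0 hB.loc.red infA infA_rat hD with u | u
        · exact Or.inl ⟨lA, lB, u⟩
        · obtain ⟨L, h2, h3⟩ := u
          exact Or.inr ⟨L, Or.inr (hB.loc.has L h2), h3⟩
      · obtain ⟨L, h2, h3⟩ := lB
        exact Or.inr ⟨L, Or.inr h2, h3⟩
    · obtain ⟨L, h2, h3⟩ := lA
      exact Or.inr ⟨L, Or.inl h2, h3⟩

/-- isotopic tangles may be exchanged in `Le` -/
private theorem le_or {T T0 : Alt} {κ : LP} (h : IsU κ → Iso 2 T.word T0.word ∨ Alt.Bad T) :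
    IsU κ → Alt.Le T T0 ∨ Alt.Bad T := fun hU => by
  rcases h hU with h1 | h1
  · exact Or.inl (Alt.le_iso h1)
  · exact Or.inr h1

/-- every combination is a reduced one with local knots, rel ends -/
theorem exLocI (T : Alt) (hc : NT.Cop T.nt) : ∃ (T0 : Alt) (κ : LP), LocI T T0 κ := by
  induction T with
  | zero => exact ⟨_, _, Alt.Loc.refl trivial, fun _ => Or.inl (Iso.refl _ _)⟩
  | cross p => exact ⟨_, _, Alt.Loc.refl trivial, fun _ => Or.inl (Iso.refl _ _)⟩
  | leaf L => exact ⟨_, _, Alt.Loc.refl trivial, fun _ => Or.inl (Iso.refl _ _)⟩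
  | rot T ih =>
    obtain ⟨T0, κ, h⟩ := ih (NT.Cop.rot hc)
    have hi : IsU κ → Iso 2 (Alt.rot T).word (Alt.rot T0).word ∨ Alt.Bad (.rot T) := by
      intro hU
      rcases h.iso hU with l | l
      · exact Or.inl (top.congR _ _ l)
      · exact Or.inr l
    refine ⟨.rot T0, κ, ⟨h.loc.red, h.loc.has, h.loc.ss.rot, fun C => ?_, le_or hi⟩, hi⟩
    obtain ⟨u, hu, e⟩ := h.loc.br (.rot C)
    exact ⟨u, hu, by rw [Alt.br_rot, Alt.br_rot]; exact e⟩
  | sum A B ihA ihB =>
    have hc' : NT.Cop (A.nt.sum B.nt) := hc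
    obtain ⟨cA, cB, _⟩ := hc'.sum
    obtain ⟨A0, κA, hA⟩ := ihA cA
    obtain ⟨B0, κB, hB⟩ := ihB cB
    by_cases nA : A0.nt.x.2 = 0 ∧ A0.nt.J.Om = -1
    · obtain ⟨iA, hss, hbr, hle⟩ := loc_infI hc' hA hB nA.1 nA.2
      have hi : IsU (κA * κB * Alt.brD B0) →
          Iso 2 (Alt.sum A B).word Alt.inf.word ∨ Alt.Bad (.sum A B) := by
        intro hU
        rcases hle hU with ⟨lA, lB, u⟩ | h
        · left
          exact ((Alt.isoL (lA.trans iA) B).trans (Alt.isoR Alt.inf lB)).trans (long1' u)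
        · exact Or.inr h
      exact ⟨Alt.inf, κA * κB * Alt.brD B0,
        ⟨trivial, fun L h => absurd h id, hss, hbr, le_or hi⟩, hi⟩
    by_cases nB : B0.nt.x.2 = 0 ∧ B0.nt.J.Om = -1
    · rw [NT.sum_comm] at hc'
      obtain ⟨iB, hss, hbr, hle⟩ := loc_infI hc' hB hA nB.1 nB.2
      have hi : IsU (κB * κA * Alt.brD A0) →
          Iso 2 (Alt.sum A B).word Alt.inf.word ∨ Alt.Bad (.sum A B) := by
        intro hU
        rcases hle hU with ⟨lB, lA, u⟩ | h
        · left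
          exact ((Alt.isoR A (lB.trans iB)).trans (Alt.isoL lA Alt.inf)).trans (long2' u)
        · obtain ⟨L, h2, h3⟩ := h
          exact Or.inr ⟨L, Or.symm h2, h3⟩
      refine ⟨Alt.inf, κB * κA * Alt.brD A0,
        ⟨trivial, fun L h => absurd h id, ?_, fun C => ?_, le_or hi⟩, hi⟩
      · have : NT.SS (A.nt.sum B.nt) Alt.inf.nt := by
          rw [NT.sum_comm]
          exact hss
        exact this
      · obtain ⟨u, hu, e⟩ := hbr C
        refine ⟨u, hu, ?_⟩
        rw [← e]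
        simp only [Alt.brN, Alt.pair]
        ring
    · have hi : IsU (κA * κB) →
          Iso 2 (Alt.sum A B).word (Alt.sum A0 B0).word ∨ Alt.Bad (.sum A B) := by
        intro hU
        rcases hA.iso (isU_left hU) with lA | lA
        · rcases hB.iso (isU_right hU) with lB | lB
          · exact Or.inl ((Alt.isoL lA B).trans (Alt.isoR A0 lB))
          · obtain ⟨L, h2, h3⟩ := lB
            exact Or.inr ⟨L, Or.inr h2, h3⟩
        · obtain ⟨L, h2, h3⟩ := lA
          exact Or.inr ⟨L, Or.inl h2, h3⟩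
      refine ⟨.sum A0 B0, κA * κB, ⟨⟨hA.loc.red, hB.loc.red, nA, nB⟩, fun L h => ?_, ?_,
        fun C => ?_, le_or hi⟩, hi⟩
      · rcases h with h | h
        · exact Or.inl (hA.loc.has L h)
        · exact Or.inr (hB.loc.has L h)
      · exact (hA.loc.ss.sumL B.nt).trans (hB.loc.ss.sumR A0.nt)
      · obtain ⟨u1, hu1, e1⟩ := hA.loc.br (.sum B C)
        obtain ⟨u2, hu2, e2⟩ := hB.loc.br (.sum C A0)
        refine ⟨u1 * u2, hu1.mul hu2, ?_⟩
        rw [Alt.br_assoc, e1]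
        have e3 : Alt.brN (.sum A0 (.sum B C)) = Alt.brN (.sum B (.sum C A0)) := by
          simp only [Alt.brN, Alt.pair]
          ring
        have e4 : Alt.brN (.sum B0 (.sum C A0)) = Alt.brN (.sum (.sum A0 B0) C) := by
          simp only [Alt.brN, Alt.pair]
          ring
        rw [e3, e2, e4]
        ring

end Pool.Agent.ALK
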