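import Pool.Agent.ALK.Loc

/-!
# ALK: combinations of leaves whose bracket pair is `(0, unit)`
-/

set_option autoImplicit false

namespace Pool.Agent.ALK

open Pool.Agent Pool.Agent.ARB Pool.Agent.ARK Pool.Agent.ALT LaurentPolynomial Pool.Agent.Helper2
open PowerSeries (coeff)

theorem pj_quad {x : LP × LP} {J : Jet} (hx : PJ x J) : J.Q J.q (-J.p) = J.w ^ 2 := by
  obtain ⟨P⟩ := exEvPt
  obtain ⟨k, g0, g1, g2, b0, b1, b2, hk, hg0, hg1, hg2, hb0, hb1, hb2, hp, hq, hw, hG, hF,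
    hH⟩ := hx P
  have h : ((J.Q J.q (-J.p) : ℚ) : ℂ) = ((J.w ^ 2 : ℚ) : ℂ) := by
    simp only [Jet.Q]
    push_cast
    rw [hp, hq, hw, hG, hF, hH]
    ring
  exact_mod_cast h

theorem pj_zero {x : LP × LP} {J : Jet} (hx : PJ x J) (h : x.1 = 0) : J.p = 0 := by
  obtain ⟨P⟩ := exEvPt
  obtain ⟨k, g0, g1, g2, b0, b1, b2, hk, hg0, hg1, hg2, hb0, hb1, hb2, hp, hq, hw, hG, hF,
    hH⟩ := hx P
  have hk0 : k ≠ 0 := by
    rintro rfl
    norm_num at hk
  rw [h, map_zero, map_zero] at hg0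
  have h1 : g0 = 0 := by
    have h2 : (-Complex.I * k) * g0 = 0 := hg0.symm
    rcases mul_eq_zero.1 h2 with h3 | h3
    · exfalso
      rcases mul_eq_zero.1 h3 with h4 | h4
      · exact Complex.I_ne_zero (neg_eq_zero.1 h4)
      · exact hk0 h4
    · exact h3
  rw [h1] at hp
  exact_mod_cast hp

/-- the jet of a tangle with `γ = 0` up to units -/
theorem jet_zero (J : Jet) (hp : J.p = 0) (hq : J.q ^ 2 = 1) (hQ : J.Q J.q (-J.p) = J.w ^ 2)
    (a : (J.sum (Arb.jet infA)).E = 0) (b : (J.sum (Jet.cross true)).E = 0)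
    (c : (J.sum (Jet.cross false)).E = 0) : J.w = 0 ∨ J.w = 1 := by
  obtain ⟨p, q, w, G, F, H⟩ := J
  have hp' : p = 0 := hp
  subst hp'
  have hq' : q ^ 2 = 1 := hq
  have hQ' : G * q ^ 2 = w ^ 2 := by
    have h : G * q ^ 2 + 2 * F * q * (-0) + H * (-0) ^ 2 = w ^ 2 := hQ
    linear_combination h
  have a' : H = 2 * w := by
    simp [Jet.E, Jet.sum, Jet.Q, infA, Arb.jet, Jet.zero, Jet.rot] at a
    linarith
  have b' : 2 * (w + q ^ 2 / 2) - q ^ 2 - (G + 2 * F + H + w - 2 * w) = 0 := by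
    simp [Jet.E, Jet.sum, Jet.Q, Jet.cross] at b
    linarith
  have c' : 2 * (w + q ^ 2 / 2) - q ^ 2 - (G - 2 * F + H + w - 2 * w) = 0 := by
    simp [Jet.E, Jet.sum, Jet.Q, Jet.cross] at c
    linarith
  have h : w * (w - 1) = 0 := by
    have h1 : G = w := by linarith
    rw [hq', h1] at hQ'
    linarith
  rcases mul_eq_zero.1 h with h1 | h1
  · exact Or.inl h1
  · exact Or.inr (by show w = 1; linarith)

/-- the bracket of `T + C` if the first entry of the pair of `T` is `0` -/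
theorem brN_zero {T : Alt} (h : T.pair.1 = 0) (C : Alt) :
    Alt.brN (.sum T C) = T.pair.2 * Alt.brN C := by
  simp only [Alt.brN, Alt.pair, h]
  ring

theorem isU_inf : IsU (Alt.brN Alt.inf) := by
  have h : Alt.brN Alt.inf = 1 := by
    simp only [Alt.brN, Alt.inf, Alt.of_pair]
    simp only [infA, Arb.pair]
    ring
  rw [h]
  exact IsU.one

theorem isU_cross (p : Bool) : IsU (Alt.brN (.cross p)) := by
  have h : Alt.brN (.cross p) = -T (if p then -(-3) else -3 : ℤ) := by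
    simp only [Alt.brN, Alt.pair, loopVal]
    cases p
    · simp only [Bool.false_eq_true, if_false]
      rw [neg_mul, add_mul, ← T_add, ← T_add]
      norm_num
    · simp only [if_true]
      rw [neg_mul, add_mul, ← T_add, ← T_add]
      norm_num
  rw [h]
  exact (IsU.T _).neg

/-- a tangle with the bracket pair `(0, unit)` is isotopic to the tangle `0` -/
theorem alt_zero (T : Alt) (h1 : T.pair.1 = 0) (h2 : IsU T.pair.2) :
    Iso 2 T.word [] ∨ Alt.Bad T := by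
  have uC : ∀ C : Alt, IsU (Alt.brN C) → IsU (Alt.brN (.sum T C)) := by
    intro C hC
    rw [brN_zero h1]
    exact h2.mul hC
  have hD : NT.D1 T.nt Alt.inf.nt := (Alt.unit_E (uC _ isU_inf)).1
  have hc : NT.Cop T.nt := hD.cop.1
  obtain ⟨T0, κ, hL⟩ := exLocI T hc
  have key : ∀ C : Alt, IsU (Alt.brN C) → IsU κ ∧ IsU (Alt.brN (.sum T0 C)) := by
    intro C hC
    obtain ⟨u, hu, e⟩ := hL.loc.br C
    have h3 := uC C hC
    rw [e] at h3
    exact ⟨isU_right (isU_left h3), isU_right h3⟩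
  have hκ := (key _ isU_inf).1
  rcases hL.iso hκ with hi | hi
  swap
  · exact Or.inr hi
  -- the jet of `T0`
  have hTp : T.nt.x.1 = 0 := by
    have h3 := pj_zero (Alt.pj T) h1
    rw [T.nt.hp] at h3
    exact_mod_cast h3
  have hp0 : T0.nt.x.1 = 0 := by
    have h3 := hL.loc.ss.p
    rw [hTp] at h3
    exact Int.natAbs_eq_zero.1 h3.symm
  have hJp : T0.nt.J.p = 0 := by
    rw [T0.nt.hp, hp0]
    rfl
  obtain ⟨a1, a2⟩ := Alt.unit_E (key _ isU_inf).2
  have hq2 : T0.nt.J.q ^ 2 = 1 := by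
    have h3 : (Alt.sum T0 Alt.inf).nt.x.1 = T0.nt.x.2 := by
      have h4 : Alt.inf.nt.x = (1, 0) := by
        unfold Alt.inf
        rw [Alt.of_nt]
        simp [NT.of, infA, Arb.pq]
      show T0.nt.x.1 * Alt.inf.nt.x.2 + T0.nt.x.2 * Alt.inf.nt.x.1 = _
      rw [h4]
      ring
    rw [h3] at a1
    rw [T0.nt.hq]
    exact NT.sq_one a1
  have hquad := pj_quad (Alt.pj T0)
  have b2 := (Alt.unit_E (key _ (isU_cross true)).2).2
  have c2 := (Alt.unit_E (key _ (isU_cross false)).2).2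
  have ja : (Alt.sum T0 Alt.inf).nt.J = T0.nt.J.sum (Arb.jet infA) := by
    show T0.nt.J.sum Alt.inf.nt.J = _
    unfold Alt.inf
    rw [Alt.of_nt]
    rfl
  have jb : ∀ p : Bool, (Alt.sum T0 (.cross p)).nt.J = T0.nt.J.sum (Jet.cross p) := fun p => rfl
  rw [ja] at a2
  rw [jb] at b2 c2
  have hw := jet_zero T0.nt.J hJp hq2 hquad a2 b2 c2
  have hOm : T0.nt.J.Om = -1 := by
    have h3 : T0.nt.J.Om = 2 * T0.nt.J.w - 1 := by
      simp only [Jet.Om, hJp]
      linear_combination -hq2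
    rcases hw with h4 | h4
    · rw [h3, h4]
      norm_num
    · by_contra h5
      have h6 := (Alt.ty T0 hL.loc.red (NT.D1.cop (show NT.D1 T0.nt Alt.inf.nt from a1)).1).pos h5
      rw [h3, h4] at h6
      norm_num at h6
  obtain ⟨R, hR, sR, iR⟩ := Alt.red_rat T0 hL.loc.red
    (NT.D1.cop (show NT.D1 T0.nt Alt.inf.nt from a1)).1 hOm
  left
  refine hi.trans (iR.trans ?_)
  refine rat_iso top hR ARB.Rat.zero ?_
  have q1 : T0.nt.x.2 = 1 ∨ T0.nt.x.2 = -1 := by
    have h3 : ((T0.nt.x.2 : ℤ) : ℚ) ^ 2 = 1 := by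
      rw [← T0.nt.hq]
      exact hq2
    have h4 : T0.nt.x.2 ^ 2 = 1 := by exact_mod_cast h3
    have h5 : (T0.nt.x.2 - 1) * (T0.nt.x.2 + 1) = 0 := by linear_combination h4
    rcases mul_eq_zero.1 h5 with h6 | h6
    · left; omega
    · right; omega
  have p2 : R.pq.1 = 0 := by
    rcases sR with ⟨e1, e2⟩ | ⟨e1, e2⟩
    · rw [hp0] at e1
      exact e1.symm
    · rw [hp0] at e1
      have e3 : (0 : ℤ) = -R.pq.1 := e1
      omega
  have q2 : R.pq.2 = 1 ∨ R.pq.2 = -1 := by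
    rcases sR with ⟨e1, e2⟩ | ⟨e1, e2⟩
    · have e3 : T0.nt.x.2 = R.pq.2 := e2
      omega
    · have e3 : T0.nt.x.2 = -R.pq.2 := e2
      omega
  rcases q2 with h | h
  · exact Or.inl ⟨p2, h⟩
  · right
    refine ⟨?_, h⟩
    rw [p2]
    rfl

/-- a tangle with the bracket pair `(unit, 0)` is isotopic to the tangle `∞` -/
theorem alt_inf (T : Alt) (h1 : T.pair.2 = 0) (h2 : IsU T.pair.1) :
    Iso 2 T.word (rotW []) ∨ Alt.Bad T := by
  rcases alt_zero (.rot T) h1 h2 with h | h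
  · left
    have h3 : Iso 2 (rotW' (rotW T.word)) (rotW' []) := congR' _ _ h
    exact ((thm_RR T.word (Alt.okA T)).1.symm.trans h3).trans rot_inf
  · exact Or.inr h

end Pool.Agent.ALK
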